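import Pool.Agent.TH389.BL.FinalP9

/-!
Chromatic zeros of sphere triangulations which can be shelled with perimeter at most eight.
-/

set_option autoImplicit false

namespace Pool.Agent.Results.MP_dbdc94_co.ShelledPerimeterEight

open Polynomial Pool.Agent.TH389.BL

/-- Let `G` be the graph of a triangulation of the sphere (or of a disc) which is built from a
triangle by joining new vertices to two consecutive boundary vertices and by adding edges over a
boundary vertex, the boundary always having at most eight vertices. Then the chromatic polynomial
of `G` is strictly positive, in particular nonzero, at every real `q` with `9/2 < q < 5`. -/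
theorem result (n : ℕ) (G : SimpleGraph (Fin n)) (ring : List (Fin n)) (h : Sh 8 n G ring)
    (p : ℝ[X]) (hp : ∀ k : ℕ, p.eval (k : ℝ) = (Nat.card (G.Coloring (Fin k)) : ℝ))
    (q : ℝ) (h1 : 9 / 2 < q) (h2 : q < 5) : 0 < p.eval q :=
  sh_pos tb8 h (by linarith) (Q9.fam h1 h2) p hp

end Pool.Agent.Results.MP_dbdc94_co.ShelledPerimeterEight
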